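import Pool.Agent.T2h82.IT.Halt

/-!
# Thin semidecidable sets of reals (infinite time Turing machines)

A thin semidecidable set has the semidecision time `ω₁` if and only if it is uncountable, and then it has exactly `ℵ₁`
elements. So Q1 asks for an uncountable thin semidecidable set: the answer is no if and only if every uncountable
semidecidable set has an uncountable closed subset (the perfect set property of the semidecidable sets).
-/

set_option autoImplicit false

open Set Ordinal Cardinal

namespace Pool.Agent.Results.MP_bf34a8_lc.UnboundedIffUncountable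

open Pool.Agent.T2h82 Pool.Agent.T2h82.IT

/-- a semidecidable set whose halting times are bounded by a countable ordinal (for one program) is Borel -/
theorem borel_of_bounded {A : Set (ℕ → Bool)} (h : ¬ IT.Unbounded A) : MeasurableSet A := by
  simp only [IT.Unbounded] at h
  push Not at h
  obtain ⟨p, hp, α, hα, h1⟩ := h
  have e : A = {x | ∃ β ≤ α, p.HaltsAt x β} := by
    ext x
    constructor
    · intro hx
      exact h1 x hx
    · rintro ⟨β, -, h2⟩
      exact (hp x).2 ⟨β, h2⟩
  rw [e]
  exact meas_halts p hα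

/-- the halting times on a countable set are bounded by a countable ordinal -/
theorem bounded_of_countable {A : Set (ℕ → Bool)} (hA : Semidecidable A) (hc : A.Countable) :
    ¬ IT.Unbounded A := by
  obtain ⟨p, hp⟩ := hA
  intro hU
  have h1 : ∀ x : A, ∃ α < (ω₁ : Ordinal.{0}), p.HaltsAt x α := fun x =>
    halts_countable p x ((hp x).1 x.2)
  choose τ hτ1 hτ2 using h1
  have : Countable A := hc.to_subtype
  have h2 : iSup τ < ω₁ := Ordinal.iSup_lt_omega_one hτ1
  obtain ⟨x, hx, h3⟩ := hU p hp (iSup τ) h2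
  exact h3 (τ ⟨x, hx⟩) (Ordinal.le_iSup τ ⟨x, hx⟩) (hτ2 ⟨x, hx⟩)

theorem unbounded_iff {A : Set (ℕ → Bool)} (hA : Semidecidable A) (hT : Thin A) :
    IT.Unbounded A ↔ ¬ A.Countable :=
  ⟨fun h hc => bounded_of_countable hA hc h, fun h => by
    by_contra h1
    exact h (thin_countable (borel_of_bounded h1) hT)⟩

/-- a thin semidecidable set has at most `ℵ₁` elements -/
theorem card_le {A : Set (ℕ → Bool)} (hA : Semidecidable A) (hT : Thin A) : #A ≤ ℵ₁ := by
  obtain ⟨p, hp⟩ := hA
  have e : A = ⋃ α : Iio (ω₁ : Ordinal.{0}), {x | ∃ β ≤ (α : Ordinal.{0}), p.HaltsAt x β} := by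
    ext x
    simp only [mem_iUnion]
    constructor
    · intro hx
      obtain ⟨α, h1, h2⟩ := halts_countable p x ((hp x).1 hx)
      exact ⟨⟨α, h1⟩, α, le_rfl, h2⟩
    · rintro ⟨α, β, -, h2⟩
      exact (hp x).2 ⟨β, h2⟩
  have hc : ∀ α : Iio (ω₁ : Ordinal.{0}),
      ({x | ∃ β ≤ (α : Ordinal.{0}), p.HaltsAt x β} : Set (ℕ → Bool)).Countable := by
    intro α
    refine thin_countable (meas_halts p α.2) fun C hC hC2 => hT C (hC.trans ?_) hC2
    rintro x ⟨β, -, h⟩
    exact (hp x).2 ⟨β, h⟩
  have h1 : #(Iio (ω₁ : Ordinal.{0})) = ℵ₁ := by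
    rw [Cardinal.mk_Iio_ordinal, ← Cardinal.ord_aleph, Cardinal.card_ord]
    simp
  have h2 : (⨆ α : Iio (ω₁ : Ordinal.{0}),
      Cardinal.lift.{1} #({x | ∃ β ≤ (α : Ordinal.{0}), p.HaltsAt x β} : Set (ℕ → Bool))) ≤ ℵ₀ := by
    refine ciSup_le' fun α => ?_
    rw [Cardinal.lift_le_aleph0]
    exact (hc α).le_aleph0
  have h3 := Cardinal.mk_iUnion_le_lift fun α : Iio (ω₁ : Ordinal.{0}) =>
    ({x | ∃ β ≤ (α : Ordinal.{0}), p.HaltsAt x β} : Set (ℕ → Bool))
  rw [← e, Cardinal.lift_id' #(Iio (ω₁ : Ordinal.{0})), h1] at h3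
  have h4 : Cardinal.lift.{1} #A ≤ ℵ₁ := by
    refine (h3.trans (mul_le_mul_right h2 _)).trans ?_
    rw [Cardinal.mul_eq_left (Cardinal.aleph0_le_aleph 1) (Cardinal.aleph0_le_aleph 1)
      Cardinal.aleph0_ne_zero]
  have h5 : (ℵ₁ : Cardinal.{1}) = Cardinal.lift.{1} (ℵ₁ : Cardinal.{0}) := by simp
  rw [h5, Cardinal.lift_le] at h4
  exact h4

/-- For a thin semidecidable set `A` of reals: the halting times are unbounded in `ω₁` for every program which
semidecides `A` if and only if `A` is uncountable, if and only if `A` has exactly `ℵ₁` elements. In particular there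
is a thin semidecidable set with the semidecision time `ω₁` if and only if there is an uncountable thin semidecidable
set, if and only if the perfect set property fails for the semidecidable sets. -/
theorem result :
    (∀ A : Set (ℕ → Bool), Semidecidable A → Thin A →
      (IT.Unbounded A ↔ ¬ A.Countable) ∧ (IT.Unbounded A ↔ #A = ℵ₁)) ∧
    ((∃ A : Set (ℕ → Bool), Semidecidable A ∧ Thin A ∧ IT.Unbounded A) ↔
      ¬ ∀ A : Set (ℕ → Bool), Semidecidable A → ¬ A.Countable →
        ∃ C ⊆ A, IsClosed C ∧ ¬ C.Countable) := by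
  refine ⟨fun A hA hT => ⟨unbounded_iff hA hT, ?_⟩, ?_⟩
  · rw [unbounded_iff hA hT]
    constructor
    · intro h
      refine le_antisymm (card_le hA hT) ?_
      rw [← Cardinal.succ_aleph0, Order.succ_le_iff]
      by_contra h1
      push Not at h1
      exact h (Cardinal.le_aleph0_iff_set_countable.1 h1)
    · intro h h1
      have h2 := Cardinal.le_aleph0_iff_set_countable.2 h1
      rw [h] at h2
      exact (Cardinal.aleph0_lt_aleph_one.not_ge) h2
  · constructor
    · rintro ⟨A, hA, hT, hU⟩ h
      obtain ⟨C, h1, h2, h3⟩ := h A hA ((unbounded_iff hA hT).1 hU)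
      exact h3 (hT C h1 h2)
    · intro h
      push Not at h
      obtain ⟨A, hA, h1, h2⟩ := h
      have hT : Thin A := fun C h3 h4 => h2 C h3 h4
      exact ⟨A, hA, hT, (unbounded_iff hA hT).2 h1⟩

end Pool.Agent.Results.MP_bf34a8_lc.UnboundedIffUncountable
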